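import Pool.Agent.H914R2.PProd

/-!
# Partial traces of correspondences on a product
-/

open CategoryTheory AlgebraicGeometry Finset TensorProduct

universe u v

namespace Pool.Agent.R911.One

open Pool.Agent.H914 VarClass Obj WeilCohomology

variable {k : Type u} [Field k] {𝒱 : VarClass k} {ops : CycleOps 𝒱}
  {W : WeilCohomology.{u, v} ops} {X Y Z : 𝒱.Obj}

/-- Contraction of the second factor. -/
noncomputable def contr (W : WeilCohomology.{u, v} ops) (X Z : 𝒱.Obj)
    (ω : Module.Dual W.K (W.H Z)) : W.H (X.prod Z) →ₗ[W.K] W.H X :=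
  (TensorProduct.rid W.K (W.H X)).toLinearMap ∘ₗ (LinearMap.lTensor (W.H X) ω) ∘ₗ
    (kappa W X Z).symm.toLinearMap

lemma contr_tmul (ω : Module.Dual W.K (W.H Z)) (a : W.H X) (b : W.H Z) :
    contr W X Z ω (W.map (fst X Z) a * W.map (snd X Z) b) = ω b • a := by
  rw [contr, LinearMap.comp_apply, LinearMap.comp_apply, LinearEquiv.coe_coe,
    LinearEquiv.coe_coe, ← kappa_tmul, LinearEquiv.symm_apply_apply, LinearMap.lTensor_tmul,
    TensorProduct.rid_tmul]

/-- The external product with a class on the second factor. -/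
noncomputable def injR (W : WeilCohomology.{u, v} ops) (X Z : 𝒱.Obj) (b : W.H Z) :
    W.H X →ₗ[W.K] W.H (X.prod Z) :=
  LinearMap.mulRight W.K (W.map (snd X Z) b) ∘ₗ (W.map (fst X Z)).toLinearMap

lemma injR_apply (a : W.H X) (b : W.H Z) :
    injR W X Z b a = W.map (fst X Z) a * W.map (snd X Z) b := rfl

/-- The super trace along the second factor. -/
noncomputable def ptr (W : WeilCohomology.{u, v} ops) (X Z : 𝒱.Obj) :
    Module.End W.K (W.H (X.prod Z)) →ₗ[W.K] Module.End W.K (W.H X) where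
  toFun A := ∑ i, contr W X Z ((Module.finBasis W.K (W.H Z)).coord i) ∘ₗ A ∘ₗ
    injR W X Z (par (W.isInternal Z) (Module.finBasis W.K (W.H Z) i))
  map_add' A B := by
    rw [← Finset.sum_add_distrib]
    apply Finset.sum_congr rfl
    intro i _
    rw [LinearMap.add_comp, LinearMap.comp_add]
  map_smul' c A := by
    rw [RingHom.id_apply, Finset.smul_sum]
    apply Finset.sum_congr rfl
    intro i _
    rw [LinearMap.smul_comp, LinearMap.comp_smul]

lemma trace_eq_sum_coord (ψ : Module.End W.K (W.H Z)) :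
    LinearMap.trace W.K (W.H Z) ψ = ∑ i, (Module.finBasis W.K (W.H Z)).coord i
      (ψ (Module.finBasis W.K (W.H Z) i)) := by
  rw [LinearMap.trace_eq_matrix_trace W.K (Module.finBasis W.K (W.H Z)), Matrix.trace]
  apply Finset.sum_congr rfl
  intro i _
  rw [Matrix.diag_apply, LinearMap.toMatrix_apply, Module.Basis.coord_apply]

/-- The partial trace of an operator which acts as an external product on the multiples of `x`. -/
lemma ptr_apply_of {A : Module.End W.K (W.H (X.prod Z))} {x y : W.H X}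
    {ψ : Module.End W.K (W.H Z)}
    (h : ∀ a, A (W.map (fst X Z) x * W.map (snd X Z) a) =
      W.map (fst X Z) y * W.map (snd X Z) (ψ a)) :
    ptr W X Z A x = LinearMap.trace W.K (W.H Z) (ψ * par (W.isInternal Z)) • y := by
  change (∑ i, contr W X Z ((Module.finBasis W.K (W.H Z)).coord i) ∘ₗ A ∘ₗ
    injR W X Z (par (W.isInternal Z) (Module.finBasis W.K (W.H Z) i))) x = _
  rw [LinearMap.sum_apply, trace_eq_sum_coord, Finset.sum_smul]
  apply Finset.sum_congr rfl
  intro i _
  rw [LinearMap.comp_apply, LinearMap.comp_apply, injR_apply, h, contr_tmul]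
  rfl

lemma ptr_extOp (φ : Module.End W.K (W.H X)) (ψ : Module.End W.K (W.H Z)) :
    ptr W X Z (extOp W φ ψ) = LinearMap.trace W.K (W.H Z) (ψ * par (W.isInternal Z)) • φ := by
  apply LinearMap.ext
  intro x
  rw [ptr_apply_of (y := φ x) (ψ := ψ) (fun a => extOp_tmul _ _ _ _), LinearMap.smul_apply]

/-- The morphism `(z, (x, y)) ↦ ((x, z), (y, z))`. -/
noncomputable def jj (X Z : 𝒱.Obj) : Z.prod (X.prod X) ⟶ (X.prod Z).prod (X.prod Z) :=
  Obj.lift (Obj.lift (snd Z (X.prod X) ≫ fst X X) (fst Z (X.prod X)))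
    (Obj.lift (snd Z (X.prod X) ≫ snd X X) (fst Z (X.prod X)))

lemma prod_hom_ext {f g : Z ⟶ X.prod Y} (h1 : f ≫ fst X Y = g ≫ fst X Y)
    (h2 : f ≫ snd X Y = g ≫ snd X Y) : f = g := by
  apply SmVar.hom_ext
  exact Limits.pullback.hom_ext (congrArg SmVar.Hom.hom h1) (congrArg SmVar.Hom.hom h2)

lemma jj_q1 : jj X Z ≫ q1 X Z = snd Z (X.prod X) := by
  apply prod_hom_ext
  · rw [Category.assoc, q1, Obj.lift_fst, jj, ← Category.assoc, Obj.lift_fst, Obj.lift_fst]
  · rw [Category.assoc, q1, Obj.lift_snd, jj, ← Category.assoc, Obj.lift_snd, Obj.lift_fst]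

lemma jj_q2 : jj X Z ≫ q2 X Z = fst Z (X.prod X) ≫ diag Z := by
  apply prod_hom_ext
  · rw [Category.assoc, q2, Obj.lift_fst, jj, ← Category.assoc, Obj.lift_fst, Obj.lift_snd,
      Category.assoc, Obj.diag, Obj.lift_fst, Category.comp_id]
  · rw [Category.assoc, q2, Obj.lift_snd, jj, ← Category.assoc, Obj.lift_snd, Obj.lift_snd,
      Category.assoc, Obj.diag, Obj.lift_snd, Category.comp_id]

/-- The class of the partial trace. -/
noncomputable def ptc (W : WeilCohomology.{u, v} ops) (X Z : 𝒱.Obj) :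
    W.H ((X.prod Z).prod (X.prod Z)) →ₗ[W.K] W.H (X.prod X) :=
  W.push (snd Z (X.prod X)) ∘ₗ (W.map (jj X Z)).toLinearMap

lemma ptc_ext (α : W.H (X.prod X)) {β : W.H (Z.prod Z)} {l : ℕ} (hβ : β ∈ W.gr _ l) :
    ptc W X Z (W.map (q1 X Z) α * W.map (q2 X Z) β) = W.tr Z (W.map (diag Z) β) • α := by
  change W.push (snd Z (X.prod X)) (W.map (jj X Z) (W.map (q1 X Z) α * W.map (q2 X Z) β)) = _
  rw [map_mul, ← W.map_comp, ← W.map_comp, jj_q1, jj_q2, W.map_comp (fst Z (X.prod X))]
  have hγ : W.map (diag Z) β ∈ W.gr Z l := W.map_mem _ hβ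
  refine gr_induction (W.isInternal (X.prod X)) (p := fun α =>
    W.push (snd Z (X.prod X)) (W.map (snd Z (X.prod X)) α *
      W.map (fst Z (X.prod X)) (W.map (diag Z) β)) = W.tr Z (W.map (diag Z) β) • α) ?_ ?_ α
  · intro i α hα
    rw [W.comm (W.map_mem _ hα) (W.map_mem _ hγ), map_smul, push_snd]
    by_cases hl : l = 2 * Z.dim
    · rw [hl, mul_left_comm, pow_mul]
      simp
    · rw [W.tr_eq_zero hγ hl, zero_smul, smul_zero]
  · intro a b ha hb
    rw [map_add, add_mul, map_add, ha, hb, smul_add]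

/-- The sign operator. -/
noncomputable def sgl (W : WeilCohomology.{u, v} ops) (X : 𝒱.Obj) (l : ℕ) :
    Module.End W.K (W.H X) :=
  scal (W.isInternal X) (fun i => (-1 : W.K) ^ (l * i))

/-- The operator of an external product of classes. -/
lemma corr_ext' (c : W.H (X.prod X)) {l : ℕ} {d : W.H (Z.prod Z)} (hd : d ∈ W.gr _ l) :
    W.corr (W.map (q1 X Z) c * W.map (q2 X Z) d) =
      extOp W (W.corr c * sgl W X l) (W.corr d) := by
  apply ext_kunneth_lin
  intro a b
  rw [extOp_tmul]
  refine gr_induction (W.isInternal X) (p := fun a =>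
    W.corr (W.map (q1 X Z) c * W.map (q2 X Z) d) (W.map (fst X Z) a * W.map (snd X Z) b) =
      W.map (fst X Z) ((W.corr c * sgl W X l) a) *
        W.map (snd X Z) (W.corr d b)) ?_ ?_ a
  · intro i a ha
    rw [Module.End.mul_apply, sgl, scal_apply _ _ ha, map_smul, map_smul, smul_mul_assoc,
      corr_apply, corr_apply, corr_apply, ← push_ext]
    rw [← map_smul]
    congr 1
    have e1 : W.map (fst _ _) (W.map (fst X Z) a) = W.map (q1 X Z) (W.map (fst X X) a) := by
      have := q1_tmul (W := W) (Z := Z) a 1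
      rw [map_one, map_one, map_one, mul_one, mul_one] at this
      exact this.symm
    have e2 : W.map (fst _ _) (W.map (snd X Z) b) = W.map (q2 X Z) (W.map (fst Z Z) b) := by
      have := q2_tmul (W := W) (Y := X) b 1
      rw [map_one, map_one, map_one, mul_one, mul_one] at this
      exact this.symm
    rw [map_mul (W.map (fst (X.prod Z) (X.prod Z))), e1, e2, map_mul (W.map (q1 X Z)),
      map_mul (W.map (q2 X Z)), mul_assoc, ← mul_assoc (W.map (q2 X Z) d),
      W.comm (W.map_mem (q2 X Z) hd) (W.map_mem (q1 X Z) (W.map_mem (fst X X) ha)),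
      smul_mul_assoc, mul_smul_comm]
    simp only [mul_assoc]
  · intro a b ha hb
    rw [map_add (W.map _), add_mul, map_add, ha, hb, map_add, map_add, add_mul]

/-- The partial trace of an external product. -/
lemma ptr_corr_ext (c : W.H (X.prod X)) {l : ℕ} {d : W.H (Z.prod Z)} (hd : d ∈ W.gr _ l) :
    ptr W X Z (W.corr (W.map (q1 X Z) c * W.map (q2 X Z) d)) =
      W.corr (ptc W X Z (W.map (q1 X Z) c * W.map (q2 X Z) d)) := by
  rw [corr_ext' c hd, ptr_extOp, ptc_ext c hd, corr_smul, LinearMap.trace_mul_comm,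
    trace_par_corr]
  by_cases hl : l = 2 * Z.dim
  · congr 1
    have : sgl W X l = 1 := by
      rw [sgl, ← scal_one (W.isInternal X)]
      congr 1
      funext i
      rw [hl, mul_assoc, pow_mul]
      simp
    rw [this, mul_one]
  · rw [W.tr_eq_zero (W.map_mem _ hd) hl, zero_smul, zero_smul]

theorem ptr_corr (c : W.H ((X.prod Z).prod (X.prod Z))) :
    ptr W X Z (W.corr c) = W.corr (ptc W X Z c) := by
  refine W.kunneth_induction (p := fun c => ptr W X Z (W.corr c) = W.corr (ptc W X Z c)) ?_ ?_ c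
  · intro a b ha hb
    rw [corr_add, map_add, map_add, corr_add, ha, hb]
  intro _ _ u _ v _
  refine W.kunneth_induction (p := fun u => ptr W X Z (W.corr (W.map (fst _ _) u *
    W.map (snd _ _) v)) = W.corr (ptc W X Z (W.map (fst _ _) u * W.map (snd _ _) v))) ?_ ?_ u
  · intro a b ha hb
    rw [map_add, add_mul, corr_add, map_add, map_add, corr_add, ha, hb]
  intro i l a ha b hb
  refine W.kunneth_induction (p := fun v => ptr W X Z (W.corr (W.map (fst _ _)
    (W.map (fst X Z) a * W.map (snd X Z) b) * W.map (snd _ _) v)) =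
    W.corr (ptc W X Z (W.map (fst _ _) (W.map (fst X Z) a * W.map (snd X Z) b) *
      W.map (snd _ _) v))) ?_ ?_ v
  · intro a b ha hb
    rw [map_add, mul_add, corr_add, map_add, map_add, corr_add, ha, hb]
  intro j m a' ha' b' hb'
  have hsw : W.map (snd _ _) (W.map (fst X Z) a') * W.map (fst _ _) (W.map (snd X Z) b) =
      (-1 : W.K) ^ (j * l) • (W.map (fst (X.prod Z) (X.prod Z)) (W.map (snd X Z) b) *
        W.map (snd (X.prod Z) (X.prod Z)) (W.map (fst X Z) a')) :=
    W.comm (W.map_mem _ (W.map_mem _ ha')) (W.map_mem _ (W.map_mem _ hb))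
  have e1 : W.map (fst (X.prod Z) (X.prod Z)) (W.map (fst X Z) a * W.map (snd X Z) b) *
        W.map (snd (X.prod Z) (X.prod Z)) (W.map (fst X Z) a' * W.map (snd X Z) b') =
      (-1 : W.K) ^ (j * l) • (W.map (q1 X Z) (W.map (fst X X) a * W.map (snd X X) a') *
        W.map (q2 X Z) (W.map (fst Z Z) b * W.map (snd Z Z) b')) := by
    rw [q1_tmul, q2_tmul, map_mul (W.map (fst (X.prod Z) (X.prod Z))),
      map_mul (W.map (snd (X.prod Z) (X.prod Z))),
      mul_assoc (W.map _ (W.map (fst X Z) a)) (W.map _ (W.map (fst X Z) a')),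
      ← mul_assoc (W.map _ (W.map (fst X Z) a')), hsw, smul_mul_assoc,
      mul_smul_comm, smul_smul, ← pow_add, ← two_mul, pow_mul, neg_one_sq, one_pow, one_smul]
    simp only [mul_assoc]
  rw [e1, corr_smul, map_smul, map_smul, corr_smul, ptr_corr_ext _
    (W.mul_mem (W.map_mem (fst Z Z) hb) (W.map_mem (snd Z Z) hb'))]

/-- Partial traces of algebraic operators are algebraic. -/
theorem ptr_mem {d : ℤ} (hd : 0 ≤ (X.dim : ℤ) + d) {T : Module.End W.K (W.H (X.prod Z))}
    (hT : T ∈ KOp W (X.prod Z) (X.prod Z) d) : ptr W X Z T ∈ KOp W X X d := by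
  induction hT using Submodule.span_induction with
  | mem x hx =>
    obtain ⟨p, hp, z, hz, rfl⟩ := hx
    rw [dim_prod] at hp
    push_cast at hp
    have e1 : W.corr (W.cl (X.prod X) (ops.push (snd Z (X.prod X)) (ops.pull (jj X Z) z))) =
        ptr W X Z (W.corr (W.cl _ z)) := by
      rw [ptr_corr, W.cl_push, W.cl_pull]
      rfl
    rw [← e1]
    apply KOp.gen (p := p - Z.dim) (by omega)
    apply ops.push_mem _ (ops.pull_mem _ hz)
    simp only [dim_prod]
    omega
  | zero => rw [map_zero]; exact Submodule.zero_mem _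
  | add x y _ _ hx hy => rw [map_add]; exact Submodule.add_mem _ hx hy
  | smul a x _ hx => rw [map_smul]; exact Submodule.smul_mem _ _ hx

end Pool.Agent.R911.One
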